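import Pool.Agent.helper30.QP.SpecK

/-! # Row qs:HTA -/

set_option autoImplicit false

noncomputable section

namespace Pool.Agent.QP

open Polynomial Pool.Agent.helper7.IG

theorem HTA : HTA_stmt := by
  intro x z h
  by_contra hz
  have hx : z ∉ (integralClosure (Algebra.adjoin kk {x}) LL).toSubring := fun h1 => hz h1
  obtain ⟨V, hV, hzV⟩ := Subring.exists_le_valuationSubring_of_isIntegrallyClosedIn hx
  refine hzV (h V (fun c => hV ?_) (hV ?_))
  · exact (integralClosure (Algebra.adjoin kk {x}) LL).algebraMap_mem (algebraMap kk (Algebra.adjoin kk {x}) c)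
  · exact (integralClosure (Algebra.adjoin kk {x}) LL).algebraMap_mem
      (⟨x, Algebra.subset_adjoin (Set.mem_singleton x)⟩ : Algebra.adjoin kk {x})

end Pool.Agent.QP
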