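import Pool.Agent.helper19.QP.SpecM

/-! # Row qm:TAY -/

set_option autoImplicit false

open Polynomial Pool.Agent.helper7.IG

noncomputable section

namespace Pool.Agent.QP

/-- the embedding of the power series -/
def TAY_i : PowerSeries kk →+* LL := HahnSeries.ofPowerSeries ℤ kk

theorem TAY_nat (x : PowerSeries kk) (n : ℕ) : (TAY_i x).coeff (n : ℤ) = PowerSeries.coeff n x :=
  HahnSeries.ofPowerSeries_apply_coeff x n

theorem TAY_neg (x : PowerSeries kk) (n : ℤ) (hn : n < 0) : (TAY_i x).coeff n = 0 := by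
  unfold TAY_i
  rw [HahnSeries.ofPowerSeries_apply]
  refine HahnSeries.embDomain_of_notMem_range ?_
  rintro ⟨m, hm⟩
  have h : ((m : ℕ) : ℤ) = n := hm
  omega

theorem TAY_lift (f : LL) (hf : ∀ n : ℤ, n < 0 → f.coeff n = 0) : ∃ F : PowerSeries kk, TAY_i F = f := by
  refine ⟨PowerSeries.mk fun n => f.coeff (n : ℤ), ?_⟩
  ext n
  by_cases hn : n < 0
  · rw [TAY_neg _ n hn, hf n hn]
  · obtain ⟨m, rfl⟩ := Int.eq_ofNat_of_zero_le (not_lt.1 hn)
    rw [TAY_nat, PowerSeries.coeff_mk]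

theorem TAY_dvd (F : PowerSeries kk) (k : ℕ) (h : ∀ n : ℤ, n < k → (TAY_i F).coeff n = 0) :
    (PowerSeries.X : PowerSeries kk) ^ k ∣ F := by
  rw [PowerSeries.X_pow_dvd_iff]
  intro m hm
  rw [← TAY_nat]
  exact h m (by exact_mod_cast hm)

theorem TAY_zero (c : PowerSeries kk) (k : ℕ) (n : ℤ) (hn : n < k) :
    (TAY_i ((PowerSeries.X : PowerSeries kk) ^ k * c)).coeff n = 0 := by
  by_cases h0 : n < 0
  · exact TAY_neg _ n h0
  · obtain ⟨m, rfl⟩ := Int.eq_ofNat_of_zero_le (not_lt.1 h0)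
    rw [TAY_nat]
    exact (PowerSeries.X_pow_dvd_iff.1 (Dvd.intro c rfl)) m (by exact_mod_cast hn)

/-- the value of a polynomial in two variables at power series -/
def TAY_ev (G : Polynomial (Polynomial kk)) (x y : PowerSeries kk) : PowerSeries kk :=
  G.eval₂ (aeval (R := kk) y).toRingHom x

theorem TAY_alg (c : kk) : TAY_i (algebraMap kk (PowerSeries kk) c) = algebraMap kk LL c := by
  have h1 : algebraMap kk (PowerSeries kk) c = PowerSeries.C c := rfl
  rw [h1]
  exact HahnSeries.ofPowerSeries_C c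

theorem TAY_ev2 (G : Polynomial (Polynomial kk)) (x y : PowerSeries kk) : TAY_i (TAY_ev G x y) = ev2 G (TAY_i x) (TAY_i y) := by
  unfold TAY_ev ev2
  rw [Polynomial.hom_eval₂]
  congr 1
  refine Polynomial.ringHom_ext (fun a => ?_) ?_
  · simp only [AlgHom.toRingHom_eq_coe, RingHom.coe_comp, RingHom.coe_coe, Function.comp_apply, aeval_C]
    exact TAY_alg a
  · simp only [AlgHom.toRingHom_eq_coe, RingHom.coe_comp, RingHom.coe_coe, Function.comp_apply, aeval_X]

theorem TAY_cong (G : Polynomial (Polynomial kk)) (x y e : PowerSeries kk) (u : PowerSeries kk) (hu : u ∣ e) :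
    u ∣ TAY_ev G x (y + e) - TAY_ev G x y := by
  rw [← Ideal.mem_span_singleton, ← Ideal.Quotient.eq_zero_iff_mem, map_sub, sub_eq_zero]
  unfold TAY_ev
  rw [Polynomial.hom_eval₂, Polynomial.hom_eval₂]
  congr 1
  refine Polynomial.ringHom_ext (fun a => ?_) ?_
  · simp only [AlgHom.toRingHom_eq_coe, RingHom.coe_comp, RingHom.coe_coe, Function.comp_apply, aeval_C]
  · simp only [AlgHom.toRingHom_eq_coe, RingHom.coe_comp, RingHom.coe_coe, Function.comp_apply, aeval_X]
    rw [map_add]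
    have h : Ideal.Quotient.mk (Ideal.span {u}) e = 0 := by
      rw [Ideal.Quotient.eq_zero_iff_mem, Ideal.mem_span_singleton]
      exact hu
    rw [h, add_zero]

theorem TAY_taylor (G : Polynomial (Polynomial kk)) (x y d : PowerSeries kk) :
    ∃ k, TAY_ev G (x + d) y = TAY_ev G x y + TAY_ev (derivative G) x y * d + k * d ^ 2 := by
  obtain ⟨k, hk⟩ := Polynomial.binomExpansion (G.map (aeval (R := kk) y).toRingHom) x d
  refine ⟨k, ?_⟩
  unfold TAY_ev
  rw [← Polynomial.eval_map, ← Polynomial.eval_map, ← Polynomial.eval_map, hk, Polynomial.derivative_map]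

theorem TAY : TAY_stmt := by
  intro G f f' d d' r hf hd hd' n hn
  obtain ⟨F, rfl⟩ := TAY_lift f fun n hn => (hf n hn).1
  obtain ⟨F', rfl⟩ := TAY_lift f' fun n hn => (hf n hn).2
  obtain ⟨D, rfl⟩ := TAY_lift d fun n hn => hd n (lt_of_lt_of_le hn (by positivity))
  obtain ⟨D', rfl⟩ := TAY_lift d' fun n hn => hd' n (lt_of_lt_of_le hn (by positivity))
  obtain ⟨a, ha⟩ := TAY_dvd D r hd
  have h2 : (PowerSeries.X : PowerSeries kk) ^ (2 * r) ∣ D' := TAY_dvd D' (2 * r) (by
    intro n hn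
    exact hd' n (by exact_mod_cast hn))
  obtain ⟨k, hk⟩ := TAY_taylor G F F' D
  obtain ⟨c, hc⟩ := TAY_cong G (F + D) F' D' _ h2
  have h3 : TAY_ev G (F + D) (F' + D') = (TAY_ev G F F' + TAY_ev (derivative G) F F' * D) +
      (PowerSeries.X : PowerSeries kk) ^ (2 * r) * (c + k * a ^ 2) := by
    have h4 : TAY_ev G (F + D) (F' + D') = TAY_ev G (F + D) F' + (PowerSeries.X : PowerSeries kk) ^ (2 * r) * c := by
      rw [← hc]
      ring
    rw [h4, hk, ha]
    ring
  have h5 := congrArg TAY_i h3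
  rw [TAY_ev2, map_add, map_add, map_add, map_add, map_mul TAY_i (TAY_ev (derivative G) F F') D, TAY_ev2, TAY_ev2] at h5
  rw [h5, HahnSeries.coeff_add, TAY_zero _ (2 * r) n (by exact_mod_cast hn), add_zero]

end Pool.Agent.QP
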