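import Pool.Agent.helper19.QP.SpecS

/-! # Project qp, row LAM: the Lambert sums -/

set_option autoImplicit false

open Finset

noncomputable section

namespace Pool.Agent.QP

open Pool.Agent.helper7.IG (kk LL sig DDk MM im2 ps Vx Nb Frame)
open Pool.Agent.LQ (FF DD)
open Pool.Agent.EP (KK ww vvx WW JG ac pp IsT)

theorem LAM_pq (n μ lam l : ℕ) (hl : 0 < l) : ∑ m ∈ l.divisors, PQ n μ lam m =
    ∑ e ∈ n.divisors, if (((μ * (n / e) : ℕ) : ℤ) - ((lam * e : ℕ) : ℤ)) ∣ (l : ℤ) then (1 : ZMod 2) else 0 := by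
  unfold PQ
  simp only [Finset.natCast_card_filter]
  rw [Finset.sum_comm]
  refine Finset.sum_congr rfl fun e _ => ?_
  set a : ℤ := ((μ * (n / e) : ℕ) : ℤ) with ha
  set b : ℤ := ((lam * e : ℕ) : ℤ) with hb
  have hiff : ∀ m : ℕ, (a - b = (m : ℤ) ∨ b - a = (m : ℤ)) ↔ m = (a - b).natAbs := by
    intro m
    omega
  simp only [hiff]
  rw [Finset.sum_ite_eq' l.divisors (a - b).natAbs]
  have h2 : (a - b).natAbs ∈ l.divisors ↔ (a - b) ∣ (l : ℤ) := by
    rw [Nat.mem_divisors, ← Int.natCast_dvd_natCast, Int.natAbs_dvd]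
    exact ⟨fun h => h.1, fun h => ⟨h, hl.ne'⟩⟩
  simp only [h2]

theorem LAM_kq (c : ℕ → ZMod 2) (μ lam l : ℕ) (hμ : 0 < μ) (hlam : 0 < lam) (hl : 0 < l) :
    ∑ m ∈ l.divisors, KQ c μ lam m =
      ∑ x ∈ (Icc 1 l ×ˢ Icc 1 l).filter (fun x => μ * x.1 + lam * x.2 = l),
        ∑ d ∈ (Nat.gcd x.1 x.2).divisors, c (x.1 * x.2 / d ^ 2) := by
  unfold KQ
  rw [Finset.sum_sigma', Finset.sum_sigma']
  refine Finset.sum_nbij' (fun p => ⟨(l / p.1 * p.2.1, l / p.1 * p.2.2), l / p.1⟩)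
    (fun p => ⟨l / p.2, (p.1.1 / p.2, p.1.2 / p.2)⟩) ?_ ?_ ?_ ?_ ?_
  · rintro ⟨m, α, β⟩ hp
    simp only [Finset.mem_sigma, Nat.mem_divisors, Finset.mem_filter, Finset.mem_product,
      Finset.mem_Icc] at hp ⊢
    obtain ⟨⟨⟨d, rfl⟩, _⟩, ⟨⟨hα1, hα2⟩, hβ1, hβ2⟩, hm⟩ := hp
    have hm0 : 0 < m := by omega
    have hd0 : 0 < d := by
      rcases Nat.eq_zero_or_pos d with h | h
      · subst h
        simp at hl
      · exact h
    rw [Nat.mul_div_cancel_left _ hm0]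
    refine ⟨⟨⟨⟨Nat.mul_pos hd0 hα1, ?_⟩, Nat.mul_pos hd0 hβ1, ?_⟩, ?_⟩, ?_, ?_⟩
    · rw [mul_comm m d]
      exact Nat.mul_le_mul_left d hα2
    · rw [mul_comm m d]
      exact Nat.mul_le_mul_left d hβ2
    · rw [← hm]
      ring
    · exact Nat.dvd_gcd (dvd_mul_right _ _) (dvd_mul_right _ _)
    · exact (Nat.gcd_pos_of_pos_left _ (Nat.mul_pos hd0 hα1)).ne'
  · rintro ⟨⟨A, B⟩, d⟩ hp
    simp only [Finset.mem_sigma, Nat.mem_divisors, Finset.mem_filter, Finset.mem_product,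
      Finset.mem_Icc] at hp ⊢
    obtain ⟨⟨⟨⟨hA1, _⟩, hB1, _⟩, hm⟩, hd, _⟩ := hp
    obtain ⟨α, rfl⟩ := hd.trans (Nat.gcd_dvd_left A B)
    obtain ⟨β, rfl⟩ := hd.trans (Nat.gcd_dvd_right (d * α) B)
    have hd0 : 0 < d := by
      rcases Nat.eq_zero_or_pos d with h | h
      · subst h
        simp at hA1
      · exact h
    have hα0 : 0 < α := by
      rcases Nat.eq_zero_or_pos α with h | h
      · subst h
        simp at hA1
      · exact h
    have hβ0 : 0 < β := by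
      rcases Nat.eq_zero_or_pos β with h | h
      · subst h
        simp at hB1
      · exact h
    have hl' : l = d * (μ * α + lam * β) := by
      rw [← hm]
      ring
    have hdiv : l / d = μ * α + lam * β := by rw [hl', Nat.mul_div_cancel_left _ hd0]
    rw [hdiv, Nat.mul_div_cancel_left _ hd0, Nat.mul_div_cancel_left _ hd0]
    have h1 : α ≤ μ * α := Nat.le_mul_of_pos_left α hμ
    have h2 : β ≤ lam * β := Nat.le_mul_of_pos_left β hlam
    exact ⟨⟨⟨d, by rw [hl']; ring⟩, hl.ne'⟩, ⟨⟨hα0, by omega⟩, hβ0, by omega⟩, rfl⟩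
  · rintro ⟨m, α, β⟩ hp
    simp only [Finset.mem_sigma, Nat.mem_divisors, Finset.mem_filter, Finset.mem_product,
      Finset.mem_Icc] at hp
    obtain ⟨⟨⟨d, rfl⟩, _⟩, ⟨⟨hα1, hα2⟩, hβ1, hβ2⟩, hm⟩ := hp
    have hm0 : 0 < m := by omega
    have hd0 : 0 < d := by
      rcases Nat.eq_zero_or_pos d with h | h
      · subst h
        simp at hl
      · exact h
    simp only [Nat.mul_div_cancel_left _ hm0, Nat.mul_div_cancel_left _ hd0,
      Nat.mul_div_cancel _ hd0]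
  · rintro ⟨⟨A, B⟩, d⟩ hp
    simp only [Finset.mem_sigma, Nat.mem_divisors, Finset.mem_filter, Finset.mem_product,
      Finset.mem_Icc] at hp
    obtain ⟨⟨⟨⟨hA1, _⟩, hB1, _⟩, hm⟩, hd, _⟩ := hp
    obtain ⟨α, rfl⟩ := hd.trans (Nat.gcd_dvd_left A B)
    obtain ⟨β, rfl⟩ := hd.trans (Nat.gcd_dvd_right (d * α) B)
    have hd0 : 0 < d := by
      rcases Nat.eq_zero_or_pos d with h | h
      · subst h
        simp at hA1
      · exact h
    have hl' : l = d * (μ * α + lam * β) := by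
      rw [← hm]
      ring
    have hm0 : 0 < μ * α + lam * β := by
      rcases Nat.eq_zero_or_pos (μ * α + lam * β) with h | h
      · rw [h, mul_zero] at hl'
        omega
      · exact h
    have hdiv : l / d = μ * α + lam * β := by rw [hl', Nat.mul_div_cancel_left _ hd0]
    have hdiv2 : l / (μ * α + lam * β) = d := by rw [hl', Nat.mul_div_cancel _ hm0]
    simp only [hdiv, hdiv2, Nat.mul_div_cancel_left _ hd0]
  · rintro ⟨m, α, β⟩ hp
    simp only [Finset.mem_sigma, Nat.mem_divisors, Finset.mem_filter, Finset.mem_product,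
      Finset.mem_Icc] at hp
    obtain ⟨⟨⟨d, rfl⟩, _⟩, ⟨⟨hα1, hα2⟩, hβ1, hβ2⟩, hm⟩ := hp
    have hm0 : 0 < m := by omega
    have hd0 : 0 < d := by
      rcases Nat.eq_zero_or_pos d with h | h
      · subst h
        simp at hl
      · exact h
    simp only [Nat.mul_div_cancel_left _ hm0]
    congr 1
    have : d * α * (d * β) = d ^ 2 * (α * β) := by ring
    rw [this, Nat.mul_div_cancel_left _ (by positivity)]

theorem LAM_e (c : ℕ → ℕ → ZMod 2) (n μ lam l : ℕ) (hn : 0 < n) (hlam : 0 < lam) :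
    ∑ x ∈ (Icc 1 l ×ˢ Icc 1 l).filter (fun x => μ * x.1 + lam * x.2 = l),
        ∑ e ∈ (Nat.gcd n x.2).divisors, c x.1 (n * x.2 / e ^ 2) =
      ∑ e ∈ n.divisors, ∑ x ∈ (Icc 1 l ×ˢ Icc 1 l).filter (fun x => μ * x.1 + lam * e * x.2 = l),
        c x.1 (n / e * x.2) := by
  rw [Finset.sum_sigma', Finset.sum_sigma']
  refine Finset.sum_nbij' (fun p => ⟨p.2, (p.1.1, p.1.2 / p.2)⟩) (fun p => ⟨(p.2.1, p.1 * p.2.2), p.1⟩)
    ?_ ?_ ?_ ?_ ?_
  · rintro ⟨⟨A, B⟩, e⟩ hp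
    simp only [Finset.mem_sigma, Nat.mem_divisors, Finset.mem_filter, Finset.mem_product,
      Finset.mem_Icc] at hp ⊢
    obtain ⟨⟨⟨⟨hA1, hA2⟩, hB1, hB2⟩, hm⟩, he, _⟩ := hp
    obtain ⟨β, rfl⟩ := he.trans (Nat.gcd_dvd_right n B)
    have he0 : 0 < e := by
      rcases Nat.eq_zero_or_pos e with h | h
      · subst h
        simp at hB1
      · exact h
    have hβ0 : 0 < β := by
      rcases Nat.eq_zero_or_pos β with h | h
      · subst h
        simp at hB1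
      · exact h
    rw [Nat.mul_div_cancel_left _ he0]
    refine ⟨⟨he.trans (Nat.gcd_dvd_left _ _), hn.ne'⟩, ⟨⟨hA1, hA2⟩, hβ0, ?_⟩, ?_⟩
    · exact (Nat.le_mul_of_pos_left β he0).trans hB2
    · rw [← hm]
      ring
  · rintro ⟨e, A, β⟩ hp
    simp only [Finset.mem_sigma, Nat.mem_divisors, Finset.mem_filter, Finset.mem_product,
      Finset.mem_Icc] at hp ⊢
    obtain ⟨⟨he, _⟩, ⟨⟨hA1, hA2⟩, hB1, hB2⟩, hm⟩ := hp
    have he0 : 0 < e := Nat.pos_of_dvd_of_pos he hn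
    have h1 : e * β ≤ lam * e * β := by
      rw [mul_assoc]
      exact Nat.le_mul_of_pos_left _ hlam
    refine ⟨⟨⟨⟨hA1, hA2⟩, Nat.mul_pos he0 hB1, by omega⟩, ?_⟩, ?_, ?_⟩
    · rw [← hm]
      ring
    · exact Nat.dvd_gcd he (dvd_mul_right _ _)
    · exact (Nat.gcd_pos_of_pos_left _ hn).ne'
  · rintro ⟨⟨A, B⟩, e⟩ hp
    simp only [Finset.mem_sigma, Nat.mem_divisors, Finset.mem_filter, Finset.mem_product,
      Finset.mem_Icc] at hp
    obtain ⟨⟨⟨⟨hA1, hA2⟩, hB1, hB2⟩, hm⟩, he, _⟩ := hp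
    have h1 := Nat.mul_div_cancel' (he.trans (Nat.gcd_dvd_right n B))
    simp only [h1]
  · rintro ⟨e, A, β⟩ hp
    simp only [Finset.mem_sigma, Nat.mem_divisors, Finset.mem_filter, Finset.mem_product,
      Finset.mem_Icc] at hp
    obtain ⟨⟨he, _⟩, ⟨⟨hA1, hA2⟩, hB1, hB2⟩, hm⟩ := hp
    have he0 : 0 < e := Nat.pos_of_dvd_of_pos he hn
    simp only [Nat.mul_div_cancel_left _ he0]
  · rintro ⟨⟨A, B⟩, e⟩ hp
    simp only [Finset.mem_sigma, Nat.mem_divisors, Finset.mem_filter, Finset.mem_product,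
      Finset.mem_Icc] at hp
    obtain ⟨⟨⟨⟨hA1, hA2⟩, hB1, hB2⟩, hm⟩, he, _⟩ := hp
    obtain ⟨β, rfl⟩ := he.trans (Nat.gcd_dvd_right n B)
    obtain ⟨ν, rfl⟩ := he.trans (Nat.gcd_dvd_left n _)
    have he0 : 0 < e := by
      rcases Nat.eq_zero_or_pos e with h | h
      · subst h
        simp at hB1
      · exact h
    simp only [Nat.mul_div_cancel_left _ he0]
    congr 1
    have : e * ν * (e * β) = e ^ 2 * (ν * β) := by ring
    rw [this, Nat.mul_div_cancel_left _ (by positivity)]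

theorem LAM (hHCM : HCM_stmt) (hJGN : JGN_stmt) : LAM_stmt := by
  intro n μ lam l hn _ hμ hlam hl
  have hn0 : 0 < n := hn.pos
  rw [Finset.sum_add_distrib, LAM_pq n μ lam l hl, LAM_kq _ μ lam l hμ hlam.pos hl]
  unfold CP
  rw [Finset.sum_add_distrib]
  congr 1
  have h := LAM_e (fun A L => JG jc A (L : ℤ)) n μ lam l hn0 hlam.pos
  simp only [Nat.cast_mul] at h ⊢
  rw [← h]
  refine Finset.sum_congr rfl fun x hx => ?_
  simp only [Finset.mem_filter, Finset.mem_product, Finset.mem_Icc] at hx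
  exact hHCM x.1 x.2 n hx.1.1.1 hx.1.2.1 hn0

end Pool.Agent.QP
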